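import Pool.Agent.NPC.Enc

/-!
# Resource-bounded measure: definitions

Density functions, null covers computable in polynomial time, density functions computable in
quasi-polynomial time.
-/

set_option autoImplicit false

namespace Pool.Agent.Helper74.PM

open Pool.Agent.NPC

/-- The `n`-th bit string in the standard (length-lexicographic) enumeration: the binary digits of
`n + 1`, most significant first, without the leading one. -/
def str (n : ℕ) : List Bool := ((n + 1).bits.dropLast).reverse

open scoped Classical in
/-- The first `n` bits of the characteristic sequence of the language `L`. -/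
noncomputable def pre (L : Set (List Bool)) (n : ℕ) : List Bool :=
  (List.range n).map fun i => decide (str i ∈ L)

/-- Density functions. -/
structure IsDensity (d : List Bool → ℝ) : Prop where
  nonneg : ∀ w, 0 ≤ d w
  avg : ∀ w, (d (w ++ [false]) + d (w ++ [true])) / 2 ≤ d w

/-- The dyadic rational `± N / 2 ^ e` given by its sign (`true` for minus), by `N` (in binary) and by
`e` (in unary). -/
noncomputable def dyad (q : Bool × ℕ × List Unit) : ℝ :=
  (if q.1 then -1 else 1) * (q.2.1 : ℝ) / 2 ^ q.2.2.length

/-- The system `d k`, `k : ℕ`, of functions is computable in polynomial time: from `1 ^ k`, `1 ^ r`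
and `w` a dyadic rational with distance at most `2 ^ (-r)` from `d k w` is computed in polynomial
time. -/
def PComp (d : ℕ → List Bool → ℝ) : Prop :=
  ∃ F : List Unit × List Unit × List Bool → Bool × ℕ × List Unit, Poly F ∧
    ∀ k r w, |dyad (F (List.replicate k (), List.replicate r (), w)) - d k w| ≤ (1 / 2) ^ r

/-- `d` is computable in quasi-polynomial time: for some `c`, from `1 ^ T`, `1 ^ r` and `w`, where
`T = 2 ^ (log₂ (r + |w| + 1)) ^ c`, a dyadic rational with distance at most `2 ^ (-r)` from `d w` is
computed in polynomial time. -/
def QComp (d : List Bool → ℝ) : Prop :=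
  ∃ (c : ℕ) (F : List Unit × List Unit × List Bool → Bool × ℕ × List Unit), Poly F ∧
    ∀ r w, |dyad (F (List.replicate (2 ^ (Nat.log 2 (r + w.length + 1)) ^ c) (),
      List.replicate r (), w)) - d w| ≤ (1 / 2) ^ r

/-- The class `X` of languages has p-measure zero: it has a p-null cover. -/
def PNull (X : Set (Set (List Bool))) : Prop :=
  ∃ d : ℕ → List Bool → ℝ, (∀ k, IsDensity (d k)) ∧ PComp d ∧
    ∀ k, d k [] ≤ (1 / 2) ^ k ∧ ∀ L ∈ X, ∃ n, 1 ≤ d k (pre L n)

end Pool.Agent.Helper74.PM
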