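import Pool.Agent.Helper74.PM.Exact

/-!
# Dilation: from quasi-polynomial time to polynomial time
-/

set_option autoImplicit false

namespace Pool.Agent.Helper74.PM

open Pool.Agent.NPC Pool.Agent.NPC.Med Pool.Agent.NPC.Uc

/-! ### Padding of strings -/

/-- the length of the `i`-th string is the number of bits of `i + 1`, minus one -/
theorem str_length (i : ℕ) : (str i).length + 1 = (i + 1).size := by
  rw [← Nat.size_eq_bits_len, bits_succ]
  simp

theorem str_length_mono {i j : ℕ} (h : i ≤ j) : (str i).length ≤ (str j).length := by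
  have h1 := str_length i
  have h2 := str_length j
  have h3 := Nat.size_le_size (show i + 1 ≤ j + 1 by omega)
  omega

section Pad

variable (Q : Polynomial ℕ)

/-- the number of the padded string -/
def hh (i : ℕ) : ℕ := 2 ^ Q.eval (str i).length * (i + 1) - 1

/-- the padded string -/
def pad (x : List Bool) : List Bool := x ++ List.replicate (Q.eval x.length) false

theorem hh_succ (i : ℕ) : hh Q i + 1 = 2 ^ Q.eval (str i).length * (i + 1) := by
  have : 0 < 2 ^ Q.eval (str i).length * (i + 1) := by positivity
  unfold hh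
  omega

theorem valB_repl (n : ℕ) : valB (List.replicate n false) = 0 := by
  induction n with
  | zero => simp
  | succ n ih => rw [List.replicate_succ, valB_cons, ih]; simp

theorem idx_pad (i : ℕ) : idx (pad Q (str i)) = hh Q i := by
  have h1 := idx_succ (pad Q (str i))
  have h2 := hh_succ Q i
  have h3 := idx_succ (str i)
  rw [idx_str] at h3
  unfold pad at h1 ⊢
  rw [List.reverse_append, List.reverse_replicate, List.append_assoc, valB_append, valB_repl,
    List.length_replicate, ← h3] at h1
  omega

theorem str_hh (i : ℕ) : str (hh Q i) = pad Q (str i) := by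
  rw [← idx_pad, str_idx]

theorem hh_strictMono : StrictMono (hh Q) := by
  intro i j hij
  have h1 := hh_succ Q i
  have h2 := hh_succ Q j
  have h3 : 2 ^ Q.eval (str i).length * (i + 1) < 2 ^ Q.eval (str j).length * (j + 1) := by
    have h4 : 2 ^ Q.eval (str i).length ≤ 2 ^ Q.eval (str j).length :=
      Nat.pow_le_pow_right (by norm_num) (eval_mono Q (str_length_mono hij.le))
    calc _ ≤ 2 ^ Q.eval (str j).length * (i + 1) := Nat.mul_le_mul_right _ h4
      _ < _ := Nat.mul_lt_mul_of_pos_left (by omega) (by positivity)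
  omega

theorem le_hh (i : ℕ) : i ≤ hh Q i := (hh_strictMono Q).id_le i

/-- the number of padded strings below `n` -/
noncomputable def cut (n : ℕ) : ℕ := Nat.find (⟨n, le_hh Q n⟩ : ∃ i, n ≤ hh Q i)

theorem lt_cut {n i : ℕ} : i < cut Q n ↔ hh Q i < n := by
  unfold cut
  constructor
  · intro h
    have := Nat.find_min _ h
    omega
  · intro h
    by_contra h2
    push Not at h2
    have h3 := Nat.find_spec (⟨n, le_hh Q n⟩ : ∃ i, n ≤ hh Q i)
    have h4 := (hh_strictMono Q).monotone h2
    omega

theorem cut_le (n : ℕ) : cut Q n ≤ n := Nat.find_min' _ (le_hh Q n)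

/-- the bits of `w` at the padded strings -/
def sub (w : List Bool) : List Bool :=
  ((List.range w.length).filter fun i => decide (hh Q i < w.length)).map
    fun i => w.getD (hh Q i) false

theorem filter_range {m n : ℕ} (hmn : m ≤ n) :
    (List.range n).filter (fun k => decide (k < m)) = List.range m := by
  obtain ⟨d, rfl⟩ := Nat.exists_eq_add_of_le hmn
  rw [List.range_add, List.filter_append]
  have h1 : (List.range m).filter (fun k => decide (k < m)) = List.range m := by
    rw [List.filter_eq_self]
    intro k hk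
    simpa using hk
  have h2 : ((List.range d).map (fun x => m + x)).filter (fun k => decide (k < m)) = [] := by
    rw [List.filter_eq_nil_iff]
    intro k hk
    simp at hk ⊢
    omega
  rw [h1, h2, List.append_nil]

theorem sub_eq (w : List Bool) :
    sub Q w = (List.range (cut Q w.length)).map fun i => w.getD (hh Q i) false := by
  unfold sub
  rw [← filter_range (cut_le Q w.length)]
  congr 1
  apply List.filter_congr
  intro i _
  rw [decide_eq_decide]
  exact (lt_cut Q).symm

@[simp] theorem sub_length (w : List Bool) : (sub Q w).length = cut Q w.length := by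
  rw [sub_eq]; simp

theorem cut_succ_of_eq {n : ℕ} (h : hh Q (cut Q n) = n) : cut Q (n + 1) = cut Q n + 1 := by
  apply le_antisymm
  · by_contra h2
    push Not at h2
    have h3 := (lt_cut Q).1 h2
    have h4 := hh_strictMono Q (Nat.lt_succ_self (cut Q n))
    simp only [Nat.succ_eq_add_one] at h4
    omega
  · exact (lt_cut Q).2 (by omega)

theorem cut_succ_of_ne {n : ℕ} (h : hh Q (cut Q n) ≠ n) : cut Q (n + 1) = cut Q n := by
  have h0 : ¬ hh Q (cut Q n) < n := fun h1 => absurd ((lt_cut Q).2 h1) (lt_irrefl _)
  apply le_antisymm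
  · by_contra h2
    push Not at h2
    have h3 := (lt_cut Q).1 h2
    omega
  · by_contra h2
    push Not at h2
    have h3 := (lt_cut Q).1 h2
    have h4 := (lt_cut Q).2 (show hh Q (cut Q (n + 1)) < n + 1 by omega)
    omega

theorem getD_append_lt (w : List Bool) (b : Bool) {i : ℕ} (h : i < w.length) :
    (w ++ [b]).getD i false = w.getD i false := by
  rw [List.getD_eq_getElem?_getD, List.getD_eq_getElem?_getD, List.getElem?_append_left h]

theorem sub_append_eq {w : List Bool} (h : hh Q (cut Q w.length) = w.length) (b : Bool) :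
    sub Q (w ++ [b]) = sub Q w ++ [b] := by
  rw [sub_eq, sub_eq, List.length_append, List.length_singleton, cut_succ_of_eq Q h,
    List.range_succ, List.map_append]
  congr 1
  · apply List.map_congr_left
    intro i hi
    rw [List.mem_range] at hi
    exact getD_append_lt w b ((lt_cut Q).1 hi)
  · simp [h]

theorem sub_append_ne {w : List Bool} (h : hh Q (cut Q w.length) ≠ w.length) (b : Bool) :
    sub Q (w ++ [b]) = sub Q w := by
  rw [sub_eq, sub_eq, List.length_append, List.length_singleton, cut_succ_of_ne Q h]
  apply List.map_congr_left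
  intro i hi
  rw [List.mem_range] at hi
  exact getD_append_lt w b ((lt_cut Q).1 hi)

theorem sub_density {e : List Bool → ℝ} (he : IsDensity e) : IsDensity (fun w => e (sub Q w)) := by
  refine ⟨fun w => he.nonneg _, fun w => ?_⟩
  by_cases h : hh Q (cut Q w.length) = w.length
  · simp only [sub_append_eq Q h]
    exact he.avg _
  · simp only [sub_append_ne Q h]
    linarith

/-- the language of the strings whose padding is in `L` -/
def pull (L : Set (List Bool)) : Set (List Bool) := {x | pad Q x ∈ L}

theorem str_mem_pull {L : Set (List Bool)} {i : ℕ} : str i ∈ pull Q L ↔ str (hh Q i) ∈ L := by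
  rw [str_hh]; rfl

theorem sub_pre (L : Set (List Bool)) (n : ℕ) : sub Q (pre L n) = pre (pull Q L) (cut Q n) := by
  classical
  rw [sub_eq, pre_length]
  unfold pre
  apply List.map_congr_left
  intro i hi
  rw [List.mem_range] at hi
  have h1 := (lt_cut Q).1 hi
  rw [List.getD_eq_getElem _ _ (by simpa using h1)]
  simp only [List.getElem_map, List.getElem_range]
  exact decide_eq_decide.2 (str_mem_pull Q).symm

/-- a position before which there are exactly `j` padded strings -/
def mm (j : ℕ) : ℕ := if j = 0 then 0 else hh Q (j - 1) + 1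

theorem cut_mm (j : ℕ) : cut Q (mm Q j) = j := by
  have key : ∀ i, i < cut Q (mm Q j) ↔ i < j := by
    intro i
    rw [lt_cut]
    unfold mm
    by_cases hj : j = 0
    · simp [hj]
    · rw [if_neg hj]
      constructor
      · intro h
        by_contra h2
        have h3 := hh_strictMono Q (show j - 1 < i by omega)
        omega
      · intro h
        have h3 := (hh_strictMono Q).monotone (show i ≤ j - 1 by omega)
        omega
  have h1 := key j
  have h2 := key (cut Q (mm Q j))
  omega

theorem mm_mono {i j : ℕ} (h : i ≤ j) : mm Q i ≤ mm Q j := by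
  unfold mm
  by_cases hi : i = 0
  · simp [hi]
  · rw [if_neg hi, if_neg (by omega)]
    have := (hh_strictMono Q).monotone (show i - 1 ≤ j - 1 by omega)
    omega

/-! ### Computation -/

variable {α : Type} [TEnc α]

theorem poly_str : Poly (fun i : ℕ => str i) := by
  have h : Poly (fun i : ℕ => ((i + 1).bits).reverse.tail) :=
    Poly.tail (Poly.reverse (Poly.natBits (Poly.succ Poly.id)))
  refine h.congr fun i => ?_
  unfold str
  rw [List.tail_reverse]

theorem poly_hh : Poly (fun i : ℕ => hh Q i) := by
  unfold hh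
  exact Poly.sub (Poly.mul (poly_two_pow (UPoly.eval (UPoly.length poly_str) Q))
    (Poly.succ Poly.id)) (NPC.Poly.const 1)

theorem poly_sub : Poly (fun w : List Bool => sub Q w) := by
  unfold sub
  refine NPC.Poly.map (F := fun (w : List Bool) (i : ℕ) => w.getD (hh Q i) false) ?_ ?_
  · refine Poly.filter (p := fun (w : List Bool) (i : ℕ) => decide (hh Q i < w.length)) ?_ ?_
    · exact UPoly.range (UPoly.length Poly.id)
    · exact Poly.decide_lt ((poly_hh Q).comp (Poly.snd Poly.id)) (Poly.length (Poly.fst Poly.id))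
  · exact Poly.getD (Poly.fst Poly.id) ((poly_hh Q).comp (Poly.snd Poly.id)) (NPC.Poly.const false)

end Pad

/-- `2 ^ (log₂ (2 n + m + 3)) ^ c` -/
def TT (c m n : ℕ) : ℕ := 2 ^ (Nat.log 2 (2 * n + m + 3)) ^ c

theorem log_eq_size (y : ℕ) : Nat.log 2 y = y.bits.length - 1 := by
  rw [Nat.size_eq_bits_len]
  by_cases hy : y = 0
  · subst hy; simp
  · have h1 : 0 < y.size := Nat.size_pos.2 (Nat.pos_of_ne_zero hy)
    rw [Nat.log_eq_iff (Or.inr ⟨by norm_num, hy⟩)]
    constructor
    · exact Nat.lt_size.1 (by omega)
    · rw [show y.size - 1 + 1 = y.size by omega]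
      exact Nat.lt_size_self y

section Comp

variable {α : Type} [TEnc α]

theorem poly_TT (c m : ℕ) {n : α → ℕ} (hn : UPoly n) : Poly (fun a => TT c m (n a)) := by
  unfold TT
  refine poly_two_pow ?_
  have h1 : Poly (fun a => 2 * n a + m + 3) :=
    Poly.add (Poly.add (Poly.mul (NPC.Poly.const 2) hn.toPoly) (NPC.Poly.const m))
      (NPC.Poly.const 3)
  have h2 : UPoly (fun a => (2 * n a + m + 3).bits.length) := UPoly.length (Poly.natBits h1)
  have h3 : UPoly (fun a => (2 * n a + m + 3).bits.length - 1) :=
    UPoly.of_le (Poly.sub h2.toPoly (NPC.Poly.const 1)) h2 fun a => Nat.sub_le _ _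
  have h4 := UPoly.eval h3 (Polynomial.X ^ c)
  simp only [Polynomial.eval_pow, Polynomial.eval_X] at h4
  simpa only [log_eq_size] using h4

/-- the padding polynomial -/
noncomputable def QQ (c m : ℕ) : Polynomial ℕ := (Polynomial.X + Polynomial.C (m + 5)) ^ c

theorem TT_cut_le (c m n : ℕ) : TT c m (cut (QQ c m) n) ≤ TT c m 0 * (n + 1) := by
  set K := cut (QQ c m) n with hK
  by_cases h0 : K = 0
  · rw [h0]
    exact Nat.le_mul_of_pos_right _ (by omega)
  · have h1 : hh (QQ c m) (K - 1) < n := (lt_cut _).1 (by omega)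
    have h2 := hh_succ (QQ c m) (K - 1)
    have h3 := str_length (K - 1)
    rw [show K - 1 + 1 = K by omega] at h2 h3
    set l := (str (K - 1)).length with hl
    have h4 : K < 2 ^ (l + 1) := by rw [h3]; exact Nat.lt_size_self K
    have h5 : Nat.log 2 (2 * K + m + 3) < l + (m + 5) := by
      apply Nat.log_lt_of_lt_pow (by omega)
      have h6 : m + 3 < 2 ^ (m + 3) := Nat.lt_two_pow_self
      have h7 : 2 ^ (l + (m + 5)) = 2 ^ (l + 1) * 2 ^ (m + 3) * 2 := by
        rw [show l + (m + 5) = (l + 1) + (m + 3) + 1 by omega, pow_add, pow_add]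
        ring
      have h8 : 0 < 2 ^ (l + 1) := by positivity
      nlinarith
    have h6 : TT c m K ≤ 2 ^ (QQ c m).eval l := by
      unfold TT
      apply Nat.pow_le_pow_right (by norm_num)
      simp only [QQ, Polynomial.eval_pow, Polynomial.eval_add, Polynomial.eval_X,
        Polynomial.eval_C]
      exact Nat.pow_le_pow_left h5.le c
    have h7 : 2 ^ (QQ c m).eval l ≤ 2 ^ (QQ c m).eval l * K := Nat.le_mul_of_pos_right _ (by omega)
    have h8 : 1 ≤ TT c m 0 := Nat.one_le_two_pow
    nlinarith

theorem upoly_TT_sub (c m : ℕ) : UPoly (fun w : List Bool => TT c m (sub (QQ c m) w).length) := by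
  refine UPoly.of_le (poly_TT c m (UPoly.length (poly_sub _)))
    (UPoly.mul (UPoly.const (TT c m 0)) (UPoly.add (UPoly.length Poly.id) (UPoly.const 1)))
    fun w => ?_
  rw [sub_length]
  exact TT_cut_le c m w.length

/-- `ev p + A * ev q` -/
def comb (A : ℕ) (p q : ℕ × List Unit) : ℕ × List Unit :=
  (p.1 * 2 ^ q.2.length + A * q.1 * 2 ^ p.2.length, List.replicate (p.2.length + q.2.length) ())

theorem ev_comb (A : ℕ) (p q : ℕ × List Unit) : ev (comb A p q) = ev p + A * ev q := by
  simp only [ev, comb, List.length_replicate, pow_add]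
  push_cast
  field_simp

theorem poly_comb (A : ℕ) {p q : α → ℕ × List Unit} (hp : Poly p) (hq : Poly q) :
    Poly (fun a => comb A (p a) (q a)) :=
  Poly.pair (Poly.add (Poly.mul (Poly.fst hp) (poly_two_pow (UPoly.length (Poly.snd hq))))
    (Poly.mul (Poly.mul (NPC.Poly.const A) (Poly.fst hq))
      (poly_two_pow (UPoly.length (Poly.snd hp)))))
    (UPoly.add (UPoly.length (Poly.snd hp)) (UPoly.length (Poly.snd hq)))

end Comp

/-- A class of languages closed under the preimages by padding. -/
def PadClosed (C : Set (Set (List Bool))) : Prop := ∀ L ∈ C, ∀ Q : Polynomial ℕ, pull Q L ∈ C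

theorem quasi_restart {C : Set (Set (List Bool))} (hC : FinVar C) (hP : PadClosed C) {c m : ℕ}
    {G1 : List Unit × List Bool → ℕ × List Unit} (hG1 : Poly G1)
    {G2 : List Bool → ℕ × List Unit} (hG2 : Poly G2) (A : ℕ)
    (he1 : IsDensity (fun w => ev (G1 (List.replicate (TT c m w.length) (), w))))
    (he2 : IsDensity (fun w => ev (G2 w))) (w0 : List Bool) (θ : ℝ)
    (hθ : ev (G1 (List.replicate (TT c m w0.length) (), w0)) + A * ev (G2 w0) < θ)
    (hcov : ∀ L ∈ C, pre L w0.length = w0 → ∃ n ≥ w0.length,
      θ ≤ ev (G1 (List.replicate (TT c m (pre L n).length) (), pre L n)) + A * ev (G2 (pre L n))) :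
    ∃ H : List Bool → ℕ × List Unit, Poly H ∧ IsDensity (fun w => ev (H w)) ∧
      ∀ L ∈ C, ∀ B : ℝ, ∃ n, B ≤ ev (H (pre L n)) := by
  set Q := QQ c m with hQ
  let E : List Bool → ℝ := fun w =>
    ev (G1 (List.replicate (TT c m w.length) (), w)) + A * ev (G2 w)
  have hE : IsDensity E := by
    refine ⟨fun w => add_nonneg (he1.nonneg w) (mul_nonneg (by positivity) (he2.nonneg w)),
      fun w => ?_⟩
    have h1 := he1.avg w
    have h2 := mul_le_mul_of_nonneg_left (he2.avg w) (show (0 : ℝ) ≤ A by positivity)
    simp only [E]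
    linarith
  let G : List Bool → ℕ × List Unit := fun w =>
    comb A (G1 (List.replicate (TT c m (sub Q w).length) (), sub Q w)) (G2 (sub Q w))
  have hG : Poly G := poly_comb A
    (hG1.comp (Poly.pair (upoly_TT_sub c m) (poly_sub Q))) (hG2.comp (poly_sub Q))
  have hGE : ∀ w, ev (G w) = E (sub Q w) := fun w => ev_comb _ _ _
  have he : IsDensity (fun w => ev (G w)) := by
    have : (fun w => ev (G w)) = fun w => E (sub Q w) := funext hGE
    rw [this]
    exact sub_density Q hE
  -- the new prefix
  let L0 : Set (List Bool) := {y | ∃ i, y = str (hh Q i) ∧ str i ∈ splice w0 ∅}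
  have hstr : Function.Injective str := Function.LeftInverse.injective idx_str
  have hL0 : pull Q L0 = splice w0 ∅ := by
    ext x
    have hx := str_idx x
    rw [← hx]
    rw [str_mem_pull]
    constructor
    · rintro ⟨j, hj, hj'⟩
      have := (hh_strictMono Q).injective (hstr hj)
      rw [this]; exact hj'
    · intro h
      exact ⟨_, rfl, h⟩
  let w0' := pre L0 (mm Q w0.length)
  have hw0' : sub Q w0' = w0 := by
    rw [sub_pre, cut_mm, hL0, pre_splice]
  have hlen : w0'.length = mm Q w0.length := by simp [w0']
  refine exact_restart hC hG he w0' θ ?_ fun L hL hw => ?_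
  · rw [hGE, hw0']
    exact hθ
  · have h1 : pre (pull Q L) w0.length = w0 := by
      rw [← cut_mm Q w0.length, ← sub_pre, ← hlen, hw, hw0']
    obtain ⟨n, hn, hn'⟩ := hcov (pull Q L) (hP L hL Q) h1
    refine ⟨mm Q n, ?_, ?_⟩
    · rw [hlen]
      exact mm_mono Q hn
    · rw [hGE, sub_pre, cut_mm]
      exact hn'

end Pool.Agent.Helper74.PM
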