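import Pool.Agent.Helper74.PM.Restart
import Pool.Agent.H527R2.UniP
import Pool.Agent.H578R2.Med.PP

/-!
# The restart argument for exactly computed density functions
-/

set_option autoImplicit false

namespace Pool.Agent.Helper74.PM

open Pool.Agent.NPC Pool.Agent.NPC.Med Pool.Agent.NPC.Uc

/-- the nonnegative dyadic rational `N / 2 ^ e` -/
noncomputable def ev (q : ℕ × List Unit) : ℝ := (q.1 : ℝ) / 2 ^ q.2.length

/-- `ev t ≤ ev q` -/
def tle (t q : ℕ × List Unit) : Bool := decide (t.1 * 2 ^ q.2.length ≤ q.1 * 2 ^ t.2.length)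

/-- `ev t < ev q` -/
def tlt (t q : ℕ × List Unit) : Bool := decide (t.1 * 2 ^ q.2.length < q.1 * 2 ^ t.2.length)

theorem tle_iff (t q : ℕ × List Unit) : tle t q = true ↔ ev t ≤ ev q := by
  unfold tle ev
  rw [decide_eq_true_eq, div_le_div_iff₀ (by positivity) (by positivity)]
  exact_mod_cast Iff.rfl

theorem tlt_iff (t q : ℕ × List Unit) : tlt t q = true ↔ ev t < ev q := by
  unfold tlt ev
  rw [decide_eq_true_eq, div_lt_div_iff₀ (by positivity) (by positivity)]
  exact_mod_cast Iff.rfl

section Poly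

variable {α : Type} [TEnc α]

theorem poly_tle {t q : α → ℕ × List Unit} (ht : Poly t) (hq : Poly q) :
    Poly (fun a => tle (t a) (q a)) :=
  Poly.decide_le (Poly.mul (Poly.fst ht) (poly_two_pow (UPoly.length (Poly.snd hq))))
    (Poly.mul (Poly.fst hq) (poly_two_pow (UPoly.length (Poly.snd ht))))

theorem poly_tlt {t q : α → ℕ × List Unit} (ht : Poly t) (hq : Poly q) :
    Poly (fun a => tlt (t a) (q a)) :=
  Poly.decide_lt (Poly.mul (Poly.fst ht) (poly_two_pow (UPoly.length (Poly.snd hq))))
    (Poly.mul (Poly.fst hq) (poly_two_pow (UPoly.length (Poly.snd ht))))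

end Poly

section Run

variable (G : List Bool → ℕ × List Unit) (t : ℕ × List Unit) (w0 : List Bool)

/-- one more bit of the greedy path -/
def cnxt (g : List Bool) : List Bool := g ++ [tlt (G (g ++ [true])) (G (g ++ [false]))]

/-- one step of the restart argument -/
def cstp (s : ℕ × List Bool × List Bool) (b : Bool) : ℕ × List Bool × List Bool :=
  bif tle t (G s.2.1) then (s.1 + 1, s.2.2 ++ [b], cnxt G s.2.2)
    else (s.1, s.2.1 ++ [b], cnxt G s.2.2)

theorem cnxt_eq (g : List Bool) : nxt (fun w => ev (G w)) g = cnxt G g := by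
  unfold nxt cnxt
  congr 2
  rw [Bool.eq_iff_iff, decide_eq_true_eq, tlt_iff]

theorem cstp_eq (s : ℕ × List Bool × List Bool) (b : Bool) :
    stp (fun w => ev (G w)) (ev t) s b = cstp G t s b := by
  unfold stp cstp
  rw [cnxt_eq]
  by_cases h : ev t ≤ ev (G s.2.1)
  · rw [if_pos h, (tle_iff _ _).2 h]; rfl
  · rw [if_neg h]
    have : tle t (G s.2.1) = false := by
      rw [← Bool.not_eq_true, tle_iff]; exact h
    rw [this]; rfl

/-- the state after reading the string `v` -/
def crun (v : List Bool) : ℕ × List Bool × List Bool := v.foldl (cstp G t) (0, w0, w0)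

theorem crun_eq (v : List Bool) : run (fun w => ev (G w)) (ev t) w0 v = crun G t w0 v := by
  unfold run crun
  have : stp (fun w => ev (G w)) (ev t) = cstp G t := by
    funext s b
    exact cstp_eq G t s b
  rw [this]

theorem crun_append (v : List Bool) (b : Bool) :
    crun G t w0 (v ++ [b]) = cstp G t (crun G t w0 v) b := by
  simp [crun, List.foldl_append]

theorem crun_bound (v : List Bool) : (crun G t w0 v).1 ≤ v.length ∧
    (crun G t w0 v).2.1.length = w0.length + v.length ∧
    (crun G t w0 v).2.2.length = w0.length + v.length := by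
  induction v using List.reverseRecOn with
  | nil => exact ⟨le_rfl, rfl, rfl⟩
  | append_singleton v b ih =>
    obtain ⟨h0, h1, h2⟩ := ih
    rw [crun_append]
    unfold cstp
    have hl : (cnxt G (crun G t w0 v).2.2).length = (crun G t w0 v).2.2.length + 1 := by
      simp [cnxt]
    cases tle t (G (crun G t w0 v).2.1)
    · simp only [cond_false, hl, h2, h1, List.length_append, List.length_singleton]
      omega
    · simp only [cond_true, hl, h2, List.length_append, List.length_singleton]
      omega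

variable {G}

theorem poly_cstp (hG : Poly G) : Poly (fun p : (ℕ × List Bool × List Bool) × Bool =>
    cstp G t p.1 p.2) := by
  have h1 : Poly (fun p : (ℕ × List Bool × List Bool) × Bool => cnxt G p.1.2.2) := by
    have hg : Poly (fun p : (ℕ × List Bool × List Bool) × Bool => p.1.2.2) :=
      Poly.snd (Poly.snd (Poly.fst Poly.id))
    refine Poly.append hg (Poly.cons (poly_tlt (hG.comp (Poly.append hg (NPC.Poly.const [true])))
      (hG.comp (Poly.append hg (NPC.Poly.const [false])))) (NPC.Poly.const []))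
  have hb : Poly (fun p : (ℕ × List Bool × List Bool) × Bool => [p.2]) :=
    Poly.cons (Poly.snd Poly.id) (NPC.Poly.const [])
  refine Poly.cond (poly_tle (NPC.Poly.const t) (hG.comp (Poly.fst (Poly.snd (Poly.fst Poly.id))))) ?_ ?_
  · exact Poly.pair (Poly.succ (Poly.fst (Poly.fst Poly.id)))
      (Poly.pair (Poly.append (Poly.snd (Poly.snd (Poly.fst Poly.id))) hb) h1)
  · exact Poly.pair (Poly.fst (Poly.fst Poly.id))
      (Poly.pair (Poly.append (Poly.fst (Poly.snd (Poly.fst Poly.id))) hb) h1)

theorem poly_crun (hG : Poly G) : Poly (fun v : List Bool => crun G t w0 v) := by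
  unfold crun
  refine Poly.foldl (F := fun _ s b => cstp G t s b) Poly.id (NPC.Poly.const _)
    ((poly_cstp t hG).comp (Poly.pair (Poly.fst (Poly.snd Poly.id)) (Poly.snd (Poly.snd Poly.id))))
    (Polynomial.C 12 * Polynomial.X + Polynomial.C (8 * w0.length + 10)) ?_
  intro v k hk
  obtain ⟨h0, h1, h2⟩ := crun_bound G t w0 (v.take k)
  change sz (crun G t w0 (v.take k)) ≤ _
  set s := crun G t w0 (v.take k) with hs
  have e1 := sz_nat_le s.1
  have e2 := sz_listBool_le s.2.1
  have e3 := sz_listBool_le s.2.2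
  have e4 := Pool.Agent.NPC.Poly.size_le_self s.1
  have e5 : (v.take k).length ≤ v.length := by simp
  have e6 := length_lt_sz v
  have e7 : ∀ q : ℕ × List Bool × List Bool, sz q = sz q.1 + (sz q.2.1 + sz q.2.2 + 1) + 1 := by
    rintro ⟨a, b, c⟩
    simp
  have e8 := e7 s
  simp only [Polynomial.eval_add, Polynomial.eval_mul, Polynomial.eval_C, Polynomial.eval_X]
  omega

end Run

/-- a class on all of whose members an exactly computed density function is unbounded has
p-measure zero -/
theorem pnull_of_unbounded {C : Set (Set (List Bool))} {G : List Bool → ℕ × List Unit}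
    (hG : Poly G) (he : IsDensity (fun w => ev (G w)))
    (hu : ∀ L ∈ C, ∀ B : ℝ, ∃ n, B ≤ ev (G (pre L n))) : PNull C := by
  obtain ⟨s0, hs0⟩ := exists_nat_gt (ev (G []))
  have hs0' : ev (G []) ≤ 2 ^ s0 := by
    have : (s0 : ℝ) < 2 ^ s0 := by exact_mod_cast Nat.lt_two_pow_self
    linarith
  refine ⟨fun k w => (1 / 2) ^ (k + s0) * ev (G w), fun k => ?_, ?_,
    fun k => ⟨?_, fun L hL => ?_⟩⟩
  · refine ⟨fun w => mul_nonneg (by positivity) (he.nonneg w), fun w => ?_⟩
    have h1 := he.avg w
    have h2 : (0 : ℝ) ≤ (1 / 2) ^ (k + s0) := by positivity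
    have h3 := mul_le_mul_of_nonneg_left h1 h2
    linarith
  · refine ⟨fun x => (false, (G x.2.2).1,
      List.replicate (x.1.length + s0 + (G x.2.2).2.length) ()), ?_, ?_⟩
    · have hGu : Poly (fun x : List Unit × List Unit × List Bool => G x.2.2) :=
        hG.comp (Poly.snd (Poly.snd Poly.id))
      refine Poly.pair (NPC.Poly.const false) (Poly.pair (Poly.fst hGu) ?_)
      exact UPoly.add (UPoly.add (UPoly.length (Poly.fst Poly.id)) (UPoly.const _))
        (UPoly.length (Poly.snd hGu))
    · intro k r w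
      have : dyad (false, (G w).1,
          List.replicate ((List.replicate k ()).length + s0 + (G w).2.length) ()) =
          (1 / 2) ^ (k + s0) * ev (G w) := by
        simp only [dyad, ev, List.length_replicate, pow_add, Bool.false_eq_true, if_false]
        simp only [one_div, inv_pow]
        field_simp
      rw [this, sub_self, abs_zero]
      positivity
  · change (1 / 2 : ℝ) ^ (k + s0) * ev (G []) ≤ _
    rw [pow_add]
    have h2 : (1 / 2 : ℝ) ^ s0 * ev (G []) ≤ 1 := by
      have : (1 / 2 : ℝ) ^ s0 * 2 ^ s0 = 1 := by rw [← mul_pow]; norm_num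
      have h3 : (0 : ℝ) ≤ (1 / 2) ^ s0 := by positivity
      nlinarith
    have h3 : (0 : ℝ) ≤ (1 / 2) ^ k := by positivity
    nlinarith
  · obtain ⟨n, hn⟩ := hu L hL (2 ^ (k + s0))
    refine ⟨n, ?_⟩
    have h2 : (1 / 2 : ℝ) ^ (k + s0) * 2 ^ (k + s0) = 1 := by rw [← mul_pow]; norm_num
    have h3 : (0 : ℝ) ≤ (1 / 2) ^ (k + s0) := by positivity
    have h4 := mul_le_mul_of_nonneg_left hn h3
    linarith

/-- **The restart argument**, for a density function which is exactly computable in polynomial
time. -/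
theorem exact_restart {C : Set (Set (List Bool))} (hC : FinVar C)
    {G : List Bool → ℕ × List Unit} (hG : Poly G) (he : IsDensity (fun w => ev (G w)))
    (w0 : List Bool) (θ : ℝ) (hθ : ev (G w0) < θ)
    (hcov : ∀ L ∈ C, pre L w0.length = w0 → ∃ n ≥ w0.length, θ ≤ ev (G (pre L n))) :
    ∃ H : List Bool → ℕ × List Unit, Poly H ∧ IsDensity (fun w => ev (H w)) ∧
      ∀ L ∈ C, ∀ B : ℝ, ∃ n, B ≤ ev (H (pre L n)) := by
  -- a dyadic threshold
  obtain ⟨b, hb⟩ := exists_pow_lt_of_lt_one (show 0 < θ - ev (G w0) by linarith)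
    (show (1 / 2 : ℝ) < 1 by norm_num)
  let t : ℕ × List Unit := ((G w0).1 * 2 ^ b + 2 ^ (G w0).2.length,
    List.replicate ((G w0).2.length + b) ())
  have ht : ev t = ev (G w0) + (1 / 2) ^ b := by
    simp only [t, ev, List.length_replicate]
    push_cast
    rw [pow_add, one_div, inv_pow]
    field_simp
  have ht1 : ev (G w0) < ev t := by
    rw [ht]; have : (0 : ℝ) < (1 / 2) ^ b := by positivity
    linarith
  have ht2 : ev t ≤ θ := by rw [ht]; linarith
  -- the factor
  have hpos : 0 ≤ ev (G w0) := he.nonneg w0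
  obtain ⟨s, hs⟩ := exists_pow_lt_of_lt_one (show 0 < (1 / 2 : ℝ) ^ b / (ev (G w0) + 1) by positivity)
    (show (1 / 2 : ℝ) < 1 by norm_num)
  set ρ : ℝ := 1 + (1 / 2) ^ s with hρ
  have hρ1 : 1 < ρ := by
    have : (0 : ℝ) < (1 / 2) ^ s := by positivity
    linarith
  have hρ2 : ρ * ev (G w0) ≤ ev t := by
    rw [ht, hρ]
    have h1 : (1 / 2 : ℝ) ^ s * (ev (G w0) + 1) < (1 / 2) ^ b := by
      rwa [lt_div_iff₀ (by positivity)] at hs
    have h2 : (0 : ℝ) < (1 / 2) ^ s := by positivity
    nlinarith
  have hD : IsDensity (DD (fun w => ev (G w)) (ev t) w0 ρ) := DD_density he hρ1.le hρ2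
  -- computation
  let st : List Bool → ℕ × List Bool × List Bool := fun w => crun G t w0 (w.drop w0.length)
  have hst : Poly st := (poly_crun t w0 hG).comp (poly_drop Poly.id (NPC.Poly.const _))
  have hj : UPoly (fun w => (st w).1) := by
    refine UPoly.of_le (Poly.fst hst) (UPoly.length Poly.id) fun w => ?_
    have := (crun_bound G t w0 (w.drop w0.length)).1
    have h2 : (w.drop w0.length).length ≤ w.length := by simp
    exact this.trans h2
  let H : List Bool → ℕ × List Unit := fun w => ((2 ^ s + 1) ^ (st w).1 * (G (st w).2.1).1,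
    List.replicate (s * (st w).1 + (G (st w).2.1).2.length) ())
  have hH : ∀ w, ev (H w) = DD (fun w => ev (G w)) (ev t) w0 ρ w := by
    intro w
    unfold DD
    rw [crun_eq]
    change _ = (ρ ^ (st w).1 * ev (G (st w).2.1))
    simp only [H]
    set j := (st w).1
    set u := (st w).2.1
    have h1 : ρ ^ j = ((2 ^ s + 1 : ℕ) : ℝ) ^ j / 2 ^ (s * j) := by
      rw [pow_mul, ← div_pow]
      congr 1
      rw [hρ, one_div, inv_pow]
      push_cast
      field_simp
    rw [h1]
    simp only [ev, List.length_replicate, pow_add]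
    push_cast
    field_simp
  refine ⟨H, ?_, ?_, fun L hL B => ?_⟩
  · have hGu : Poly (fun w => G (st w).2.1) := hG.comp (Poly.fst (Poly.snd hst))
    refine Poly.pair (Poly.mul (poly_upow hj (NPC.Poly.const _)) (Poly.fst hGu)) ?_
    exact UPoly.add (UPoly.mul (UPoly.const _) hj) (UPoly.length (Poly.snd hGu))
  · have : (fun w => ev (H w)) = DD (fun w => ev (G w)) (ev t) w0 ρ := funext hH
    rw [this]
    exact hD
  · obtain ⟨n, hn⟩ := DD_unbounded he hC (fun L hL hw => by
      obtain ⟨n, hn, hn'⟩ := hcov L hL hw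
      exact ⟨n, hn, ht2.trans hn'⟩) ht1 hρ1 hL B
    exact ⟨n, by rw [hH]; exact hn⟩

end Pool.Agent.Helper74.PM
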