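import Pool.Agent.Helper74.PM.NPc

/-!
# From approximations to exact computations, and the main theorem
-/

set_option autoImplicit false

namespace Pool.Agent.Helper74.PM

open Pool.Agent.NPC Pool.Agent.NPC.Med Pool.Agent.NPC.Uc

/-- the positive part of an approximation, plus `2 ^ (-(m + l))` -/
def fix (m l : ℕ) (q : Bool × ℕ × List Unit) : ℕ × List Unit :=
  ((bif q.1 then 0 else q.2.1) * 2 ^ (m + l) + 2 ^ q.2.2.length,
    List.replicate (q.2.2.length + (m + l)) ())

theorem ev_fix (m l : ℕ) (q : Bool × ℕ × List Unit) :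
    ev (fix m l q) = max (dyad q) 0 + (1 / 2) ^ (m + l) := by
  obtain ⟨s, N, E⟩ := q
  have h1 : ev (fix m l (s, N, E)) = ((bif s then 0 else N : ℕ) : ℝ) / 2 ^ E.length +
      (1 / 2) ^ (m + l) := by
    simp only [ev, fix, List.length_replicate]
    push_cast
    rw [pow_add (2 : ℝ) E.length, one_div, inv_pow]
    field_simp
  rw [h1]
  congr 1
  cases s
  · simp only [dyad, cond_false, Bool.false_eq_true, if_false, one_mul]
    rw [max_eq_left (by positivity)]
  · simp only [dyad, cond_true, if_true]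
    rw [max_eq_right]
    · simp
    · have : (0 : ℝ) ≤ (N : ℝ) / 2 ^ E.length := by positivity
      rw [neg_one_mul, neg_div]
      linarith

theorem poly_fix {α : Type} [TEnc α] (m : ℕ) {l : α → ℕ} (hl : UPoly l)
    {q : α → Bool × ℕ × List Unit} (hq : Poly q) : Poly (fun a => fix m (l a) (q a)) := by
  have h1 : UPoly (fun a => m + l a) := UPoly.add (UPoly.const m) hl
  have h2 : UPoly (fun a => (q a).2.2.length) := UPoly.length (Poly.snd (Poly.snd hq))
  exact Poly.pair (Poly.add (Poly.mul (Poly.cond (Poly.fst hq) (NPC.Poly.const 0)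
    (Poly.fst (Poly.snd hq))) (poly_two_pow h1)) (poly_two_pow h2)) (UPoly.add h2 h1)

theorem fix_density {d : List Bool → ℝ} (hd : IsDensity d) (m : ℕ)
    {q : List Bool → Bool × ℕ × List Unit}
    (hq : ∀ w, |dyad (q w) - d w| ≤ (1 / 2) ^ (w.length + m + 2)) :
    IsDensity (fun w => ev (fix m w.length (q w))) ∧
      (∀ w, d w ≤ ev (fix m w.length (q w))) ∧
      ∀ w, ev (fix m w.length (q w)) ≤ d w + 2 * (1 / 2) ^ m := by
  have h1 : ∀ w, |max (dyad (q w)) 0 - d w| ≤ (1 / 2) ^ (w.length + m + 2) := by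
    intro w
    have h2 := hq w
    have h3 := hd.nonneg w
    have h4 : |max (dyad (q w)) 0 - max (d w) 0| ≤ |dyad (q w) - d w| := by
      have := abs_max_sub_max_le_abs (dyad (q w)) (d w) 0
      exact this
    rw [max_eq_left h3] at h4
    exact h4.trans h2
  have h5 : ∀ n : ℕ, (1 / 2 : ℝ) ^ (n + m + 2) = (1 / 2) ^ (m + n) / 4 := by
    intro n
    rw [show n + m + 2 = (m + n) + 2 by omega, pow_add]
    norm_num
    ring
  have h6 : ∀ n : ℕ, (1 / 2 : ℝ) ^ (m + (n + 1)) = (1 / 2) ^ (m + n) / 2 := by
    intro n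
    rw [show m + (n + 1) = (m + n) + 1 by omega, pow_succ]
    ring
  refine ⟨⟨fun w => ?_, fun w => ?_⟩, fun w => ?_, fun w => ?_⟩
  · rw [ev_fix]
    have : (0 : ℝ) < (1 / 2) ^ (m + w.length) := by positivity
    have h2 := le_max_right (dyad (q w)) 0
    linarith
  · simp only [ev_fix, List.length_append, List.length_singleton]
    have a0 := abs_le.1 (h1 w)
    have a1 := abs_le.1 (h1 (w ++ [false]))
    have a2 := abs_le.1 (h1 (w ++ [true]))
    have a3 := hd.avg w
    simp only [List.length_append, List.length_singleton] at a1 a2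
    rw [h5] at a0 a1 a2
    rw [h6] at a1 a2 ⊢
    have : (0 : ℝ) < (1 / 2) ^ (m + w.length) := by positivity
    linarith
  · rw [ev_fix]
    have a0 := abs_le.1 (h1 w)
    rw [h5] at a0
    have : (0 : ℝ) < (1 / 2) ^ (m + w.length) := by positivity
    linarith
  · rw [ev_fix]
    have a0 := abs_le.1 (h1 w)
    rw [h5] at a0
    have h7 : (1 / 2 : ℝ) ^ (m + w.length) ≤ (1 / 2) ^ m := by
      rw [pow_add]
      have h8 : (1 / 2 : ℝ) ^ w.length ≤ 1 := pow_le_one₀ (by norm_num) (by norm_num)
      have h9 : (0 : ℝ) < (1 / 2) ^ m := by positivity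
      nlinarith
    have : (0 : ℝ) < (1 / 2) ^ (m + w.length) := by positivity
    linarith

theorem density_le {d : List Bool → ℝ} (hd : IsDensity d) (w : List Bool) :
    d w ≤ 2 ^ w.length * d [] := by
  induction w using List.reverseRecOn with
  | nil => simp
  | append_singleton w b ih =>
    have h1 := hd.avg w
    have h2 := hd.nonneg (w ++ [false])
    have h3 := hd.nonneg (w ++ [true])
    rw [List.length_append, List.length_singleton, pow_succ]
    cases b <;> linarith

/-- The main theorem, for classes closed under finite variations and under the preimages by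
padding. -/
theorem main_unbounded {C : Set (Set (List Bool))} (hC : FinVar C) (hP : PadClosed C)
    {d : List Bool → ℝ} (hd : IsDensity d) (hq : QComp d) (w : List Bool) (α : ℝ) (hα : d w < α)
    (hn : PNull {L | L ∈ C ∧ pre L w.length = w ∧ ∀ n ≥ w.length, d (pre L n) < α}) :
    ∃ H : List Bool → ℕ × List Unit, Poly H ∧ IsDensity (fun w => ev (H w)) ∧
      ∀ L ∈ C, ∀ B : ℝ, ∃ n, B ≤ ev (H (pre L n)) := by
  obtain ⟨c, F, hF, hF'⟩ := hq
  obtain ⟨d', hd', ⟨F', hF1, hF2⟩, hcov⟩ := hn
  -- the parameters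
  obtain ⟨A, hA⟩ := exists_nat_gt (max α 0)
  have hA1 : α < A := (le_max_left _ _).trans_lt hA
  have hA0 : (0 : ℝ) < A := (le_max_right _ _).trans_lt hA
  set γ := α - d w with hγ
  have hγ0 : 0 < γ := by linarith
  obtain ⟨k0, hk0⟩ := exists_pow_lt_of_lt_one (show 0 < γ / (2 * A * 2 ^ w.length) by positivity)
    (show (1 / 2 : ℝ) < 1 by norm_num)
  set k := k0 + w.length + 1 with hk
  obtain ⟨m, hm⟩ := exists_pow_lt_of_lt_one (show 0 < γ / (4 * (1 + A)) by positivity)
    (show (1 / 2 : ℝ) < 1 by norm_num)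
  -- exact versions
  have e1 := fix_density hd m (q := fun w => F (List.replicate (TT c m w.length) (),
    List.replicate (w.length + m + 2) (), w)) (by
      intro w
      have := hF' (w.length + m + 2) w
      rw [show w.length + m + 2 + w.length + 1 = 2 * w.length + m + 3 by ring] at this
      exact this)
  have e2 := fix_density (hd' k) m (q := fun w => F' (List.replicate k (),
    List.replicate (w.length + m + 2) (), w)) (fun w => hF2 k _ w)
  obtain ⟨e11, e12, e13⟩ := e1
  obtain ⟨e21, e22, e23⟩ := e2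
  have hlen : UPoly (fun x : List Unit × List Bool => x.2.length) := UPoly.length (Poly.snd Poly.id)
  have hdk : ∀ v : List Bool, d' k v ≤ 2 ^ v.length * (1 / 2) ^ k := by
    intro v
    have h1 := density_le (hd' k) v
    have h2 := (hcov k).1
    have h3 : (0 : ℝ) < 2 ^ v.length := by positivity
    nlinarith
  refine quasi_restart hC hP (c := c) (m := m)
    (G1 := fun x => fix m x.2.length (F (x.1, List.replicate (x.2.length + m + 2) (), x.2)))
    (poly_fix m hlen (hF.comp (Poly.pair (Poly.fst Poly.id) (Poly.pair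
      (UPoly.add (UPoly.add hlen (UPoly.const m)) (UPoly.const 2)) (Poly.snd Poly.id)))))
    (G2 := fun v => fix m v.length (F' (List.replicate k (),
      List.replicate (v.length + m + 2) (), v)))
    (poly_fix m (UPoly.length Poly.id) (hF1.comp (Poly.pair (NPC.Poly.const _) (Poly.pair
      (UPoly.add (UPoly.add (UPoly.length Poly.id) (UPoly.const m)) (UPoly.const 2)) Poly.id))))
    A e11 e21 w α ?_ ?_
  · have h1 := e13 w
    have h2 := e23 w
    have h3 := hdk w
    have h4 : 2 ^ w.length * (1 / 2 : ℝ) ^ k = (1 / 2) ^ k0 / 2 := by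
      rw [hk, pow_add, pow_add]
      have : (2 : ℝ) ^ w.length * (1 / 2) ^ w.length = 1 := by rw [← mul_pow]; norm_num
      calc _ = (1 / 2 : ℝ) ^ k0 * ((2 : ℝ) ^ w.length * (1 / 2) ^ w.length) * (1 / 2) ^ 1 := by
            ring
        _ = _ := by rw [this]; ring
    rw [h4] at h3
    have h5 : (1 / 2 : ℝ) ^ k0 * (2 * A * 2 ^ w.length) < γ := by
      rwa [lt_div_iff₀ (by positivity)] at hk0
    have h6 : (1 / 2 : ℝ) ^ m * (4 * (1 + A)) < γ := by
      rwa [lt_div_iff₀ (by positivity)] at hm
    have h7 : (1 : ℝ) ≤ 2 ^ w.length := one_le_pow₀ (by norm_num)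
    have h8 : (0 : ℝ) < (1 / 2) ^ k0 := by positivity
    have h9 : (1 / 2 : ℝ) ^ k0 * (2 * A) ≤ (1 / 2 : ℝ) ^ k0 * (2 * A * 2 ^ w.length) := by
      apply mul_le_mul_of_nonneg_left _ h8.le
      nlinarith
    have h10 := mul_le_mul_of_nonneg_left (h2.trans (add_le_add_left h3 _)) hA0.le
    have h11 : ((1 / 2 : ℝ) ^ k0 * (2 * A)) < γ := lt_of_le_of_lt h9 h5
    simp only at h1 h2 h10 ⊢
    nlinarith
  · intro L hL hw
    by_cases hex : ∃ n ≥ w.length, α ≤ d (pre L n)
    · obtain ⟨n, hn, hn'⟩ := hex
      refine ⟨n, hn, ?_⟩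
      have h1 := e12 (pre L n)
      have h2 := e21.nonneg (pre L n)
      have h3 := mul_nonneg hA0.le h2
      simp only at h1 h2 h3 ⊢
      linarith
    · push Not at hex
      obtain ⟨n, hn⟩ := (hcov k).2 L ⟨hL, hw, hex⟩
      refine ⟨n, ?_, ?_⟩
      · by_contra h
        push Not at h
        have h1 := hdk (pre L n)
        rw [pre_length] at h1
        have h2 : (2 : ℝ) ^ n * (1 / 2) ^ k < 1 := by
          have h3 : (2 : ℝ) ^ n < 2 ^ k := pow_lt_pow_right₀ (by norm_num) (by omega)
          have h4 : (2 : ℝ) ^ k * (1 / 2) ^ k = 1 := by rw [← mul_pow]; norm_num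
          have h5 : (0 : ℝ) < (1 / 2) ^ k := by positivity
          nlinarith
        linarith
      · have h1 := e22 (pre L n)
        have h2 := e11.nonneg (pre L n)
        have h3 := mul_le_mul_of_nonneg_left (hn.trans h1) hA0.le
        simp only at h1 h2 h3 ⊢
        linarith

theorem PNull.mono {X Y : Set (Set (List Bool))} (h : PNull Y) (hXY : X ⊆ Y) : PNull X := by
  obtain ⟨d, h1, h2, h3⟩ := h
  exact ⟨d, h1, h2, fun k => ⟨(h3 k).1, fun L hL => (h3 k).2 L (hXY hL)⟩⟩

theorem pnull_empty : PNull ∅ := by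
  refine ⟨fun _ _ => 0, fun _ => ⟨fun _ => le_rfl, fun _ => by norm_num⟩,
    ⟨fun _ => (false, 0, []), NPC.Poly.const _, fun k r w => ?_⟩, fun k => ⟨by positivity,
      fun L hL => absurd hL (Set.notMem_empty L)⟩⟩
  simp [dyad]

theorem exists_lt {d : List Bool → ℝ} (hd : IsDensity d) {w : List Bool} (hw : d w ≠ d []) :
    ∃ v, d v < d [] := by
  by_contra h
  push Not at h
  apply hw
  have key : ∀ v : List Bool, d v = d [] := by
    intro v
    induction v using List.reverseRecOn with
    | nil => rfl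
    | append_singleton v b ih =>
      have h1 := hd.avg v
      have h2 := h (v ++ [false])
      have h3 := h (v ++ [true])
      cases b <;> linarith
  exact key w

/-- localisation, for classes closed under finite variations and under the preimages by padding -/
theorem main1 {C : Set (Set (List Bool))} (hC : FinVar C) (hP : PadClosed C)
    {d : List Bool → ℝ} (hd : IsDensity d) (hq : QComp d) (w : List Bool) (α : ℝ) (hα : d w < α) :
    PNull {L | L ∈ C ∧ pre L w.length = w ∧ ∀ n ≥ w.length, d (pre L n) < α} ↔ PNull C := by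
  constructor
  · intro hn
    obtain ⟨H, h1, h2, h3⟩ := main_unbounded hC hP hd hq w α hα hn
    exact pnull_of_unbounded h1 h2 h3
  · intro hn
    exact hn.mono fun L hL => hL.1

/-- strategies which are never permanently behind -/
theorem main2 {C : Set (Set (List Bool))} (hC : FinVar C) (hP : PadClosed C) (hne : C.Nonempty) :
    PNull C ↔ ∃ d : List Bool → ℝ, IsDensity d ∧ QComp d ∧ (∃ w, d w ≠ d []) ∧
      ∀ L ∈ C, ∀ ε > 0, ∀ m, ∃ n ≥ m, d [] - ε ≤ d (pre L n) := by
  constructor
  · intro hn
    have hz : QComp (fun _ => (0 : ℝ)) :=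
      ⟨0, fun _ => (false, 0, []), NPC.Poly.const _, fun r w => by simp [dyad]⟩
    obtain ⟨H, h1, h2, h3⟩ := main_unbounded hC hP (d := fun _ => 0)
      ⟨fun _ => le_rfl, fun _ => by norm_num⟩ hz [] 1 (by norm_num) (hn.mono fun L hL => hL.1)
    refine ⟨fun w => ev (H w), h2, ⟨0, fun x => (false, (H x.2.2).1, (H x.2.2).2), ?_, ?_⟩, ?_, ?_⟩
    · have h4 : Poly (fun x : List Unit × List Unit × List Bool => H x.2.2) :=
        h1.comp (Poly.snd (Poly.snd Poly.id))
      exact Poly.pair (NPC.Poly.const false) (Poly.pair (Poly.fst h4) (Poly.snd h4))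
    · intro r w
      have : dyad (false, (H w).1, (H w).2) = ev (H w) := by simp [dyad, ev]
      rw [this, sub_self, abs_zero]
      positivity
    · obtain ⟨L, hL⟩ := hne
      obtain ⟨n, hn'⟩ := h3 L hL (ev (H []) + 1)
      exact ⟨pre L n, by linarith [hn'] |> fun (h : ev (H []) < ev (H (pre L n))) => h.ne'⟩
    · intro L hL ε hε m
      obtain ⟨B, hB⟩ : ∃ B : ℝ, ∀ n < m, ev (H (pre L n)) < B := by
        induction m with
        | zero => exact ⟨0, fun n hn => absurd hn (by omega)⟩
        | succ m ih =>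
          obtain ⟨B, hB⟩ := ih
          refine ⟨max B (ev (H (pre L m)) + 1), fun n hn => ?_⟩
          rcases Nat.lt_succ_iff_lt_or_eq.1 hn with h | h
          · exact (hB n h).trans_le (le_max_left _ _)
          · subst h
            exact (lt_add_one _).trans_le (le_max_right _ _)
      obtain ⟨n, hn'⟩ := h3 L hL (max B (ev (H [])))
      refine ⟨n, ?_, ?_⟩
      · by_contra h
        push Not at h
        have h4 := hB n h
        have h5 := (le_max_left B (ev (H []))).trans hn'
        linarith
      · have h5 := (le_max_right B (ev (H []))).trans hn'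
        simp only at h5 ⊢
        linarith
  · rintro ⟨d, hd, hq, ⟨w, hw⟩, hb⟩
    obtain ⟨v, hv⟩ := exists_lt hd hw
    refine (main1 hC hP hd hq v ((d v + d []) / 2) (by linarith)).1 ?_
    refine pnull_empty.mono ?_
    rintro L ⟨hL, hL', hn⟩
    obtain ⟨n, hn1, hn2⟩ := hb L hL ((d [] - d v) / 2) (by linarith) v.length
    have := hn n hn1
    linarith

end Pool.Agent.Helper74.PM
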