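import Pool.Agent.Helper74.PM.Dil

/-!
# NP is closed under finite variations and under the preimages by padding
-/

set_option autoImplicit false

namespace Pool.Agent.Helper74.PM

open Pool.Agent.NPC Pool.Agent.NPC.Med Pool.Agent.NPC.Uc

/-- the class NP -/
def NPc : Set (Set (List Bool)) := {L | InNP L}

theorem poly_verify {V : List Bool → List Bool} (hV : PolyTime V) (p : Polynomial ℕ)
    {f : List Bool → List Bool} (hf : Poly f) :
    Poly (fun x : List Bool × List Bool => decide (x.2.length ≤ p.eval (f x.1).length) &&
      decide (V (pairBits (f x.1) x.2) = [true])) := by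
  have hf' : Poly (fun x : List Bool × List Bool => f x.1) := hf.comp (Poly.fst Poly.id)
  have hu : Poly (fun x : List Bool × List Bool => p.eval (f x.1).length) :=
    (UPoly.eval (UPoly.length hf') p).toPoly
  have hv : Poly (fun x : List Bool × List Bool => V (pairBits (f x.1) x.2)) :=
    (poly_of_polyTime hV).comp (poly_pairBits hf' (Poly.snd Poly.id))
  exact Poly.and (Poly.decide_le (Poly.length (Poly.snd Poly.id)) hu)
    (Poly.decide_eq hv (NPC.Poly.const [true]))

theorem poly_mem (S : List (List Bool)) :
    Poly (fun x : List Bool × List Bool => decide (x.1 ∈ S)) :=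
  (Poly.decide_mem (f := fun x : List Bool × List Bool => x.1) (l := fun _ => S)
    (Poly.fst Poly.id) (NPC.Poly.const S)).congr fun a => by congr

theorem np_of_reduction {L L' : Set (List Bool)} (hL : InNP L) {f : List Bool → List Bool}
    (hf : Poly f) (S T : List (List Bool))
    (h : ∀ x, x ∈ L' ↔ if x ∈ S then x ∈ T else f x ∈ L) : InNP L' := by
  obtain ⟨V, p, hV, hA⟩ := hL
  obtain ⟨q, hq⟩ := hf.sz_le
  apply inNP_raw
  refine of_cert (β := List Bool) (R := fun x : List Bool × List Bool =>
    bif decide (x.1 ∈ S) then decide (x.1 ∈ T) else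
      (decide (x.2.length ≤ p.eval (f x.1).length) &&
        decide (V (pairBits (f x.1) x.2) = [true])))
    (Poly.cond (poly_mem S) (poly_mem T) (poly_verify hV p hf))
    (Polynomial.C 4 * p.comp q + Polynomial.C 1) ?_ ?_
  · intro x w hw
    rw [h x]
    by_cases hS : x ∈ S
    · simp only [hS, decide_true, cond_true, decide_eq_true_eq] at hw
      rw [if_pos hS]
      exact hw
    · simp only [hS, decide_false, cond_false, Bool.and_eq_true, decide_eq_true_eq] at hw
      rw [if_neg hS]
      exact (hA _).2 ⟨w, hw.1, hw.2⟩
  · intro x hx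
    rw [h x] at hx
    by_cases hS : x ∈ S
    · rw [if_pos hS] at hx
      refine ⟨[], by simp, ?_⟩
      simp [hS, hx]
    · rw [if_neg hS] at hx
      obtain ⟨w, h1, h2⟩ := (hA _).1 hx
      refine ⟨w, ?_, ?_⟩
      · have h3 := sz_listBool_le w
        have h4 := hq x
        have h5 := length_lt_sz (f x)
        have h6 := eval_mono p (show (f x).length ≤ q.eval (sz x) by omega)
        simp only [Polynomial.eval_add, Polynomial.eval_mul, Polynomial.eval_C,
          Polynomial.eval_comp]
        omega
      · simp only [hS, decide_false, cond_false, Bool.and_eq_true, decide_eq_true_eq]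
        exact ⟨h1, h2⟩

theorem finVar_NPc : FinVar NPc := by
  classical
  rintro L hL L' ⟨N, hN⟩
  let S : List (List Bool) := (List.range N).map str
  let T : List (List Bool) := S.filter (fun x => decide (x ∈ L'))
  refine np_of_reduction (L := L) hL (f := fun x => x) Poly.id S T fun x => ?_
  by_cases hS : x ∈ S
  · rw [if_pos hS]
    simp [T, hS]
  · rw [if_neg hS]
    have h1 : N ≤ idx x := by
      by_contra h2
      push Not at h2
      exact hS (List.mem_map.2 ⟨idx x, List.mem_range.2 h2, str_idx x⟩)
    have := hN (idx x) h1
    rwa [str_idx] at this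

theorem padClosed_NPc : PadClosed NPc := by
  intro L hL Q
  refine np_of_reduction (L := L) hL (f := pad Q) ?_ [] [] fun x => ?_
  · unfold pad
    exact Poly.append Poly.id (poly_replicate (UPoly.eval (UPoly.length Poly.id) Q)
      (NPC.Poly.const false))
  · simp only [List.not_mem_nil, if_false]
    rfl

end Pool.Agent.Helper74.PM
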