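import Pool.Agent.Helper74.PM.Defs
import Pool.Agent.NPC.Num

/-!
# The enumeration of the strings, and the restart argument
-/

set_option autoImplicit false

namespace Pool.Agent.Helper74.PM

open Pool.Agent.NPC

/-! ### The enumeration of the strings -/

/-- The number of a string. -/
def idx (x : List Bool) : ℕ := valB (x.reverse ++ [true]) - 1

theorem bits_valB_true : ∀ l : List Bool, (valB (l ++ [true])).bits = l ++ [true] := by
  intro l
  induction l with
  | nil => simp
  | cons b l ih =>
    have h0 : valB (l ++ [true]) ≠ 0 := by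
      rw [valB_append]
      simp
    rw [List.cons_append, valB_cons, show (if b = true then 1 else 0) + 2 * valB (l ++ [true]) =
      Nat.bit b (valB (l ++ [true])) by cases b <;> simp [Nat.bit] <;> omega]
    rw [Nat.bits_append_bit _ _ (fun h => absurd h h0), ih]

theorem valB_true_pos (l : List Bool) : 0 < valB (l ++ [true]) := by
  rw [valB_append]
  simp

theorem idx_succ (x : List Bool) : idx x + 1 = valB (x.reverse ++ [true]) := by
  have := valB_true_pos x.reverse
  unfold idx
  omega

theorem bits_succ (n : ℕ) : (n + 1).bits = (str n).reverse ++ [true] := by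
  unfold str
  rw [List.reverse_reverse]
  have h : (n + 1).bits ≠ [] := by
    intro h
    have := valB_bits (n + 1)
    rw [h] at this
    simp at this
  conv_lhs => rw [← List.dropLast_append_getLast h]
  congr 2
  have key : ∀ m : ℕ, ∀ h : m.bits ≠ [], m.bits.getLast h = true := by
    intro m
    induction m using Nat.binaryRec' with
    | zero => intro h; simp at h
    | bit b m hm ih =>
      intro h
      have e := Nat.bits_append_bit m b hm
      simp only [e]
      by_cases h0 : m.bits = []
      · have : m = 0 := by
          have := valB_bits m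
          rw [h0] at this
          simpa using this.symm
        have hb := hm this
        subst hb
        simp [h0]
      · rw [List.getLast_cons h0]
        exact ih h0
  exact key _ h

theorem idx_str (n : ℕ) : idx (str n) = n := by
  have := idx_succ (str n)
  rw [← bits_succ, valB_bits] at this
  omega

theorem str_idx (x : List Bool) : str (idx x) = x := by
  have h := bits_succ (idx x)
  rw [idx_succ, bits_valB_true] at h
  have := List.append_cancel_right h
  exact (List.reverse_injective this).symm

theorem pre_succ (L : Set (List Bool)) (n : ℕ) :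
    open scoped Classical in pre L (n + 1) = pre L n ++ [decide (str n ∈ L)] := by
  unfold pre
  rw [List.range_succ, List.map_append]
  rfl

@[simp] theorem pre_zero (L : Set (List Bool)) : pre L 0 = [] := rfl

@[simp] theorem pre_length (L : Set (List Bool)) (n : ℕ) : (pre L n).length = n := by
  simp [pre]

theorem pre_take (L : Set (List Bool)) {m n : ℕ} (h : m ≤ n) : (pre L n).take m = pre L m := by
  unfold pre
  rw [← List.map_take, List.take_range, min_eq_left h]

/-- `L` with its first `|g|` bits replaced by `g` -/
def splice (g : List Bool) (L : Set (List Bool)) : Set (List Bool) :=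
  {x | (idx x < g.length → g.getD (idx x) false = true) ∧ (g.length ≤ idx x → x ∈ L)}

theorem str_mem_splice {g : List Bool} {L : Set (List Bool)} {i : ℕ} :
    str i ∈ splice g L ↔ (i < g.length → g.getD i false = true) ∧ (g.length ≤ i → str i ∈ L) := by
  simp only [splice, Set.mem_setOf_eq, idx_str]

theorem str_mem_splice_ge {g : List Bool} {L : Set (List Bool)} {i : ℕ} (h : g.length ≤ i) :
    str i ∈ splice g L ↔ str i ∈ L := by
  rw [str_mem_splice]
  constructor
  · intro h1
    exact h1.2 h
  · intro h1
    exact ⟨fun h2 => absurd h2 (by omega), fun _ => h1⟩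

theorem pre_splice (g : List Bool) (L : Set (List Bool)) : pre (splice g L) g.length = g := by
  classical
  apply List.ext_getElem
  · simp
  · intro i h1 h2
    simp only [pre, List.getElem_map, List.getElem_range]
    rw [str_mem_splice]
    have : g.getD i false = g[i] := by
      rw [List.getD_eq_getElem _ _ h2]
    rw [this]
    cases h3 : g[i]
    · simp [h2]
    · simp [h2]

theorem pre_succ_congr {L L' : Set (List Bool)} {n : ℕ} (h : str n ∈ L' ↔ str n ∈ L) :
    open scoped Classical in pre L' (n + 1) = pre L' n ++ [decide (str n ∈ L)] := by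
  classical
  rw [pre_succ]
  congr 2
  exact decide_eq_decide.2 h

/-- A class of languages closed under finite variations. -/
def FinVar (C : Set (Set (List Bool))) : Prop :=
  ∀ L ∈ C, ∀ L' : Set (List Bool), (∃ N, ∀ i ≥ N, (str i ∈ L' ↔ str i ∈ L)) → L' ∈ C

/-! ### The restart argument -/

section Restart

variable (e : List Bool → ℝ) (θ : ℝ) (w0 : List Bool)

open scoped Classical in
/-- one more bit of the greedy path -/
noncomputable def nxt (g : List Bool) : List Bool :=
  g ++ [decide (e (g ++ [true]) < e (g ++ [false]))]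

open scoped Classical in
/-- one step: number of restarts, virtual string, greedy path -/
noncomputable def stp (s : ℕ × List Bool × List Bool) (b : Bool) : ℕ × List Bool × List Bool :=
  if θ ≤ e s.2.1 then (s.1 + 1, s.2.2 ++ [b], nxt e s.2.2) else (s.1, s.2.1 ++ [b], nxt e s.2.2)

/-- the state after reading the string `v` -/
noncomputable def run (v : List Bool) : ℕ × List Bool × List Bool := v.foldl (stp e θ) (0, w0, w0)

/-- the new density function -/
noncomputable def DD (ρ : ℝ) (w : List Bool) : ℝ :=
  ρ ^ (run e θ w0 (w.drop w0.length)).1 * e (run e θ w0 (w.drop w0.length)).2.1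

theorem run_append (v : List Bool) (b : Bool) :
    run e θ w0 (v ++ [b]) = stp e θ (run e θ w0 v) b := by
  simp [run, List.foldl_append]

variable {e θ w0}

theorem nxt_le (he : IsDensity e) (g : List Bool) : e (nxt e g) ≤ e g := by
  unfold nxt
  have h := he.avg g
  by_cases h1 : e (g ++ [true]) < e (g ++ [false])
  · simp only [h1, decide_true]
    linarith
  · simp only [h1, decide_false]
    push Not at h1
    linarith

/-- good paths: they start with `w0`, and from there on the values are at most `e w0` -/
def Good (e : List Bool → ℝ) (w0 g : List Bool) : Prop :=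
  w0.length ≤ g.length ∧ g.take w0.length = w0 ∧ ∀ m, w0.length ≤ m → e (g.take m) ≤ e w0

theorem good_self : Good e w0 w0 :=
  ⟨le_rfl, by simp, fun m hm => by rw [List.take_of_length_le hm]⟩

theorem Good.nxt (he : IsDensity e) {g : List Bool} (h : Good e w0 g) : Good e w0 (nxt e g) := by
  obtain ⟨h1, h2, h3⟩ := h
  have hl : (PM.nxt e g).length = g.length + 1 := by simp [PM.nxt]
  have htake : ∀ m ≤ g.length, (PM.nxt e g).take m = g.take m := by
    intro m hm
    unfold PM.nxt
    rw [List.take_append_of_le_length hm]
  refine ⟨by omega, by rw [htake _ h1, h2], fun m hm => ?_⟩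
  by_cases hm' : m ≤ g.length
  · rw [htake m hm']
    exact h3 m hm
  · rw [List.take_of_length_le (by omega)]
    have h4 := h3 g.length h1
    rw [List.take_length] at h4
    exact (nxt_le he g).trans h4

theorem run_inv (he : IsDensity e) (v : List Bool) :
    (run e θ w0 v).2.1.length = w0.length + v.length ∧
    (run e θ w0 v).2.2.length = w0.length + v.length ∧ Good e w0 (run e θ w0 v).2.2 := by
  induction v using List.reverseRecOn with
  | nil => exact ⟨rfl, rfl, good_self⟩
  | append_singleton v b ih =>
    obtain ⟨h1, h2, h3⟩ := ih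
    rw [run_append]
    unfold stp
    have hl : (PM.nxt e (run e θ w0 v).2.2).length = (run e θ w0 v).2.2.length + 1 := by
      simp [PM.nxt]
    split_ifs
    · refine ⟨?_, ?_, h3.nxt he⟩
      · simp [h2]; omega
      · simp only [hl, h2, List.length_append, List.length_singleton]; omega
    · refine ⟨?_, ?_, h3.nxt he⟩
      · simp [h1]; omega
      · simp only [hl, h2, List.length_append, List.length_singleton]; omega

theorem Good.le {g : List Bool} (h : Good e w0 g) : e g ≤ e w0 := by
  have := h.2.2 g.length h.1
  rwa [List.take_length] at this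

theorem DD_density (he : IsDensity e) {ρ : ℝ} (hρ : 1 ≤ ρ) (h : ρ * e w0 ≤ θ) :
    IsDensity (DD e θ w0 ρ) := by
  refine ⟨fun w => mul_nonneg (by positivity) (he.nonneg _), fun w => ?_⟩
  by_cases hw : w.length < w0.length
  · have h1 : ∀ b : Bool, (w ++ [b]).drop w0.length = [] := by
      intro b
      rw [List.drop_eq_nil_iff]
      simp
      omega
    have h2 : w.drop w0.length = [] := by
      rw [List.drop_eq_nil_iff]
      omega
    unfold DD
    rw [h1, h1, h2]
    linarith
  · push Not at hw
    have h1 : ∀ b : Bool, (w ++ [b]).drop w0.length = w.drop w0.length ++ [b] := by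
      intro b
      rw [List.drop_append_of_le_length hw]
    unfold DD
    rw [h1, h1, run_append, run_append]
    set s := run e θ w0 (w.drop w0.length) with hs
    have hg : Good e w0 s.2.2 := (run_inv he _).2.2
    unfold stp
    by_cases h3 : θ ≤ e s.2.1
    · rw [if_pos h3, if_pos h3]
      simp only
      have h4 := he.avg s.2.2
      have h5 := hg.le
      have h6 : (0 : ℝ) ≤ ρ ^ s.1 := by positivity
      have h7 := he.nonneg w0
      rw [pow_succ]
      have h8 : ρ * ((e (s.2.2 ++ [false]) + e (s.2.2 ++ [true])) / 2) ≤ e s.2.1 := by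
        have : ρ * ((e (s.2.2 ++ [false]) + e (s.2.2 ++ [true])) / 2) ≤ ρ * e w0 :=
          mul_le_mul_of_nonneg_left (h4.trans h5) (by linarith)
        linarith
      have h9 := mul_le_mul_of_nonneg_left h8 h6
      calc _ = ρ ^ s.1 * (ρ * ((e (s.2.2 ++ [false]) + e (s.2.2 ++ [true])) / 2)) := by ring
        _ ≤ _ := h9
    · rw [if_neg h3, if_neg h3]
      simp only
      have h4 := he.avg s.2.1
      have h6 : (0 : ℝ) ≤ ρ ^ s.1 := by positivity
      have h9 := mul_le_mul_of_nonneg_left h4 h6
      calc _ = ρ ^ s.1 * ((e (s.2.1 ++ [false]) + e (s.2.1 ++ [true])) / 2) := by ring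
        _ ≤ _ := h9

theorem pre_drop_succ (L : Set (List Bool)) {n m : ℕ} (h : m ≤ n) :
    open scoped Classical in
    (pre L (n + 1)).drop m = (pre L n).drop m ++ [decide (str n ∈ L)] := by
  rw [pre_succ, List.drop_append_of_le_length (by simpa using h)]

/-- one phase -/
theorem phase {C : Set (Set (List Bool))}
    (hcov : ∀ L ∈ C, pre L w0.length = w0 → ∃ n ≥ w0.length, θ ≤ e (pre L n))
    {L L' : Set (List Bool)} {N J : ℕ} (hN : w0.length ≤ N) (hL' : L' ∈ C)
    (hw : pre L' w0.length = w0) (hag : ∀ i ≥ N, (str i ∈ L' ↔ str i ∈ L))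
    (hlow : ∀ m, w0.length ≤ m → m < N → e (pre L' m) < θ)
    (h1 : (run e θ w0 ((pre L N).drop w0.length)).1 = J)
    (h2 : (run e θ w0 ((pre L N).drop w0.length)).2.1 = pre L' N) :
    ∃ n ≥ N, (run e θ w0 ((pre L n).drop w0.length)).1 = J ∧
      θ ≤ e (run e θ w0 ((pre L n).drop w0.length)).2.1 := by
  classical
  have hex : ∃ n, N ≤ n ∧ θ ≤ e (pre L' n) := by
    obtain ⟨n, hn, hn'⟩ := hcov L' hL' hw
    refine ⟨n, ?_, hn'⟩
    by_contra h
    push Not at h
    exact absurd hn' (not_le.2 (hlow n hn h))
  let n1 := Nat.find hex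
  have hn1 := Nat.find_spec hex
  have hmin : ∀ m, N ≤ m → m < n1 → e (pre L' m) < θ := by
    intro m hm hm'
    have := Nat.find_min hex hm'
    push Not at this
    exact this hm
  have key : ∀ m, N ≤ m → m ≤ n1 → (run e θ w0 ((pre L m).drop w0.length)).1 = J ∧
      (run e θ w0 ((pre L m).drop w0.length)).2.1 = pre L' m := by
    intro m hm
    induction m, hm using Nat.le_induction with
    | base => intro _; exact ⟨h1, h2⟩
    | succ m hm ih =>
      intro hm'
      obtain ⟨h3, h4⟩ := ih (by omega)
      rw [pre_drop_succ L (hN.trans hm), run_append]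
      have h5 := hmin m hm (by omega)
      unfold stp
      rw [h4, if_neg (not_le.2 h5), h3]
      refine ⟨rfl, ?_⟩
      simp only
      rw [pre_succ_congr (hag m hm)]
  refine ⟨n1, hn1.1, (key n1 hn1.1 le_rfl).1, ?_⟩
  rw [(key n1 hn1.1 le_rfl).2]
  exact hn1.2

theorem restarts (he : IsDensity e) {C : Set (Set (List Bool))} (hC : FinVar C)
    (hcov : ∀ L ∈ C, pre L w0.length = w0 → ∃ n ≥ w0.length, θ ≤ e (pre L n))
    (hθ : e w0 < θ) {L : Set (List Bool)} (hL : L ∈ C) (J : ℕ) :
    ∃ n ≥ w0.length, (run e θ w0 ((pre L n).drop w0.length)).1 = J ∧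
      θ ≤ e (run e θ w0 ((pre L n).drop w0.length)).2.1 := by
  classical
  induction J with
  | zero =>
    have hz : (pre L w0.length).drop w0.length = [] := by
      rw [List.drop_eq_nil_iff]; simp
    refine phase (L' := splice w0 L) hcov le_rfl (hC L hL _ ⟨w0.length, fun i hi =>
      str_mem_splice_ge hi⟩) (pre_splice _ _) (fun i hi => str_mem_splice_ge hi)
      (fun m hm hm' => absurd hm (by omega)) ?_ ?_
    · rw [hz]; rfl
    · rw [hz, pre_splice]; rfl
  | succ J ih =>
    obtain ⟨n, hn, h1, h2⟩ := ih
    obtain ⟨-, h4, h5⟩ := run_inv (θ := θ) he ((pre L n).drop w0.length)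
    set s := run e θ w0 ((pre L n).drop w0.length) with hs
    have hlen : s.2.2.length = n := by
      rw [h4]
      simp
      omega
    have hpre : pre (splice s.2.2 L) n = s.2.2 := by
      have := pre_splice s.2.2 L
      rwa [hlen] at this
    have hstep : run e θ w0 ((pre L (n + 1)).drop w0.length) =
        (J + 1, s.2.2 ++ [decide (str n ∈ L)], PM.nxt e s.2.2) := by
      rw [pre_drop_succ L hn, run_append, ← hs]
      unfold stp
      rw [if_pos h2, h1]
    obtain ⟨n', hn', h6⟩ := phase (L := L) (L' := splice s.2.2 L) (N := n + 1) (J := J + 1) hcov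
      (by omega) (hC L hL _ ⟨s.2.2.length, fun i hi => str_mem_splice_ge hi⟩)
      (by
        rw [← pre_take _ hn, hpre]
        exact h5.2.1)
      (fun i hi => str_mem_splice_ge (by omega))
      (fun m hm hm' => by
        rw [← pre_take (splice s.2.2 L) (show m ≤ n by omega), hpre]
        exact lt_of_le_of_lt (h5.2.2 m hm) hθ)
      (by rw [hstep])
      (by
        rw [hstep, pre_succ_congr (str_mem_splice_ge (by omega)), hpre])
    exact ⟨n', by omega, h6⟩

theorem DD_unbounded (he : IsDensity e) {C : Set (Set (List Bool))} (hC : FinVar C)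
    (hcov : ∀ L ∈ C, pre L w0.length = w0 → ∃ n ≥ w0.length, θ ≤ e (pre L n))
    (hθ : e w0 < θ) {ρ : ℝ} (hρ : 1 < ρ) {L : Set (List Bool)} (hL : L ∈ C) (B : ℝ) :
    ∃ n, B ≤ DD e θ w0 ρ (pre L n) := by
  have hθ0 : 0 < θ := lt_of_le_of_lt (he.nonneg _) hθ
  obtain ⟨J, hJ⟩ := pow_unbounded_of_one_lt (B / θ) hρ
  obtain ⟨n, -, h1, h2⟩ := restarts he hC hcov hθ hL J
  refine ⟨n, ?_⟩
  unfold DD
  rw [h1]
  have h3 : B < ρ ^ J * θ := by
    rwa [div_lt_iff₀ hθ0] at hJ
  have h4 : (0 : ℝ) ≤ ρ ^ J := by positivity
  exact h3.le.trans (mul_le_mul_of_nonneg_left h2 h4)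

end Restart

end Pool.Agent.Helper74.PM
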